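import Pool.Agent.Helper36.SSSDefs
import Pool.Agent.Helper36.SSSTail
import Pool.Agent.Helper36.SSSBuild
import Pool.Agent.Helper36.SSSLocal

/-!
Real separable Banach spaces whose dual has the bounded approximation property have strongly series
summable M-bases whose coefficient space contains a prescribed separable subspace of the dual,
provided the space or its dual contains the `ℓ_∞^n` uniformly, or the space contains uniformly
complemented finite dimensional subspaces with uniformly symmetric bases.
-/

set_option autoImplicit false

open Filter Topology

namespace Pool.Agent.Results.MP_f4d175_an.RealSSSMBasis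

open Pool.Agent.Helper36

theorem result {E : Type*} [NormedAddCommGroup E] [NormedSpace ℝ E] [CompleteSpace E]
    [TopologicalSpace.SeparableSpace E] (hE : HasBAP (StrongDual ℝ E))
    (hS : ContainsComplementedSymmetric E ∨ ContainsLinftyUniformly E ∨
      ContainsLinftyUniformly (StrongDual ℝ E))
    (V : Submodule ℝ (StrongDual ℝ E))
    (hV : TopologicalSpace.IsSeparable (V : Set (StrongDual ℝ E))) :
    ∃ (x : ℕ → E) (f : ℕ → StrongDual ℝ E), IsMBasis x f ∧ StronglySeriesSummable x f ∧
      V ≤ (Submodule.span ℝ (Set.range f)).topologicalClosure := by
  have hS' : ContainsComplementedSymmetric E := by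
    rcases hS with h | h | h
    · exact h
    · exact symmetric_of_linfty h
    · exact symmetric_of_dual_linfty h
  obtain ⟨K, hK, hTail⟩ := tailProp_of_symmetric hS'
  obtain ⟨lam, hlam, hB⟩ := hE
  have hSup : Supply E ((lam + 1) + ((lam + 1) + 1) * K + 3) := by
    intro P hPP hPF
    obtain ⟨T, hTF, hTn, hTP, hPT⟩ := exists_exact (lt_of_lt_of_le one_pos hlam) hB P hPP hPF
    exact exists_diag hK hTail P hPP hPF T hTF (by linarith) hTn hTP hPT
  exact mbasis_of_supply (not_finiteDimensional_of_tailProp hTail) (by positivity) hSup V hV

end Pool.Agent.Results.MP_f4d175_an.RealSSSMBasis
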